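import Pool.Agent.Helper96.BT.Defs

/-!
# BT, R3: the holes are chosen by averaging
-/

set_option autoImplicit false

namespace Pool.Agent.Helper58.BT

open Finset Pool.Agent.Helper19.NF Pool.Agent.Helper74.NW Pool.Agent.Helper96.BT
open Pool.Agent.Helper74.NE (fine fine_apply)
open Pool.Agent.Helper99.NQ (pos)

section net

variable {n D m S : ℕ} [NeZero m] {F B W G Z : Type} [Field F] [Fintype F] [AddCommGroup B] [AddCommGroup W]
  [Module F W] [Fintype W] [Fintype B] (enc : W →+ (Fin D × Fin m → B))

open Classical in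
/-- The holes given by the children `s u` and the letters `t u`, `u ∈ A`. -/
noncomputable def hole (A : Finset (Fin n)) (s : Fin n → Fin D) (t : {u // u ∈ A} → Fin m) (u : Fin n) :
    Fin D × Fin m := (s u, if hu : u ∈ A then t ⟨u, hu⟩ else 0)

omit [NeZero m] in
/-- Double counting. -/
theorem double_count {α β : Type} [Fintype α] [Fintype β] (p : α → Prop) (q : β → α → Prop) (k : ℕ) (δ : ℝ)
    (hk : ∀ a, p a → k ≤ Nat.card {b // q b a}) (hq : ∀ b, (Nat.card {a // q b a} : ℝ) ≤ δ) :
    (Nat.card {a // p a} : ℝ) * k ≤ Nat.card β * δ := by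
  classical
  have h1 : (univ.filter p).card * k ≤ ∑ b : β, (univ.filter (q b)).card := by
    calc (univ.filter p).card * k = ∑ _a ∈ univ.filter p, k := by simp
      _ ≤ ∑ a ∈ univ.filter p, (univ.filter (fun b => q b a)).card := by
          apply sum_le_sum
          intro a ha
          have := hk a (mem_filter.1 ha).2
          rwa [Nat.card_eq_fintype_card, Fintype.card_subtype] at this
      _ ≤ ∑ a : α, (univ.filter (fun b => q b a)).card :=
          sum_le_sum_of_subset (filter_subset _ _)
      _ = ∑ b : β, (univ.filter (q b)).card := by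
          simp only [card_filter]
          exact sum_comm
  have h2 : ((∑ b : β, (univ.filter (q b)).card : ℕ) : ℝ) ≤ Nat.card β * δ := by
    rw [Nat.cast_sum]
    calc ∑ b : β, ((univ.filter (q b)).card : ℝ) ≤ ∑ _b : β, δ := by
          apply sum_le_sum
          intro b _
          have := hq b
          rwa [Nat.card_eq_fintype_card, Fintype.card_subtype] at this
      _ = Nat.card β * δ := by simp [Nat.card_eq_fintype_card]
  rw [Nat.card_eq_fintype_card, Fintype.card_subtype]
  calc ((univ.filter p).card : ℝ) * k = (((univ.filter p).card * k : ℕ) : ℝ) := by push_cast; ring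
    _ ≤ ((∑ b : β, (univ.filter (q b)).card : ℕ) : ℝ) := by exact_mod_cast h1
    _ ≤ _ := h2

/-- R3: the holes are chosen by averaging: every node `g (s1 u) u` has at least `e + 1` letters which may be taken. -/
theorem card_inD (P : NProg (B × W) F Z S) (g : Fin D → Equiv.Perm (Fin n))
    (x0 : Fin n × Fin m → B) (h e T i : ℕ) (L1 L2 : List (Fin S × ℕ × Fin S)) (A : Finset (Fin n))
    (s1 s2 : Fin n → Fin D) (δ : ℝ)
    (hH : ∀ h1 h2, (Nat.card {I // InH P enc g x0 h e T i L1 L2 A h1 h2 I} : ℝ) ≤ δ) :
    (Nat.card {I // InD P enc g x0 h e T i L1 L2 A s1 s2 I} : ℝ) ≤ ((m : ℝ) / (e + 1)) ^ (2 * A.card) * δ := by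
  classical
  have key := double_count (α := B × W → F) (β := ({u // u ∈ A} → Fin m) × ({u // u ∈ A} → Fin m))
    (fun I => InD P enc g x0 h e T i L1 L2 A s1 s2 I)
    (fun t I => InH P enc g x0 h e T i L1 L2 A (hole A s1 t.1) (hole A s2 t.2) I)
    ((e + 1) ^ (2 * A.card)) δ ?_ (fun t => hH _ _)
  · have hc : Nat.card (({u // u ∈ A} → Fin m) × ({u // u ∈ A} → Fin m)) = m ^ (2 * A.card) := by
      simp [Nat.card_eq_fintype_card, two_mul, pow_add]
    rw [hc] at key
    have h0 : (0 : ℝ) < ((e : ℝ) + 1) ^ (2 * A.card) := by positivity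
    push_cast at key
    rw [div_pow, div_mul_eq_mul_div, le_div_iff₀ h0]
    exact key
  · rintro I ⟨hcf, c1, c2, r1, r2, hT, hf, hn1, hn2⟩
    have cnt : ∀ (s : Fin n → Fin D) (c : List (B × W)),
        (∀ u ∈ A, g (s u) u ∉ full enc g x0 h e i I (free c)) →
        (e + 1) ^ A.card ≤ (Fintype.piFinset (fun u : {u // u ∈ A} => univ.filter
          (fun t : Fin m => h ≤ gap (free c) (val (fine g) x0 (tab enc I) i (g (s u) u, t))))).card := by
      intro s c hs
      rw [Fintype.card_piFinset]
      calc (e + 1) ^ A.card = ∏ _u : {u // u ∈ A}, (e + 1) := by simp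
        _ ≤ _ := by
          apply prod_le_prod' 
          intro u _
          have := hs u.1 u.2
          unfold full at this
          rw [mem_filter, not_and] at this
          have := this (mem_univ _)
          omega
    have hle : (e + 1) ^ (2 * A.card) ≤ ((Fintype.piFinset (fun u : {u // u ∈ A} => univ.filter
          (fun t : Fin m => h ≤ gap (free c1) (val (fine g) x0 (tab enc I) i (g (s1 u) u, t))))) ×ˢ
          (Fintype.piFinset (fun u : {u // u ∈ A} => univ.filter
          (fun t : Fin m => h ≤ gap (free c2) (val (fine g) x0 (tab enc I) i (g (s2 u) u, t)))))).card := by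
      rw [card_product, two_mul, pow_add]
      exact Nat.mul_le_mul (cnt s1 c1 hn1) (cnt s2 c2 hn2)
    refine hle.trans ?_
    rw [Nat.card_eq_fintype_card, Fintype.card_subtype]
    apply card_le_card
    intro t ht
    rw [mem_product, Fintype.mem_piFinset, Fintype.mem_piFinset] at ht
    rw [mem_filter]
    refine ⟨mem_univ _, hcf, c1, c2, r1, r2, hT, hf, ?_, ?_⟩
    · intro u hu
      have := (mem_filter.1 (ht.1 ⟨u, hu⟩)).2
      simpa [pos, hole, hu] using this
    · intro u hu
      have := (mem_filter.1 (ht.2 ⟨u, hu⟩)).2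
      simpa [pos, hole, hu] using this

end net

end Pool.Agent.Helper58.BT
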