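import Pool.Agent.Helper42.BT.NumC
import Pool.Agent.Helper97.BT.NumA
import Pool.Agent.Helper97.BT.NumB

/-!
# BT, piece N1: the numbers
-/

set_option autoImplicit false

namespace Pool.Agent.Helper58.BT

open Pool.Agent.Helper96.BT

/-- The number of samples. -/
theorem num_q {s w q : ℕ} {ε θ : ℝ} (hs : 2 ^ 60 ≤ s) (hw : 2 ^ w ≤ s) (hε : 1 / (s : ℝ) ≤ ε)
    (hθ : 1 / (s : ℝ) ≤ θ) (hq : q = s ^ 8) :
    (10 ^ 6 : ℝ) * 2 ^ w * (w + 1) * (s + 1 / (θ / 4)) ^ 2 / (ε ^ 2 * (θ / 4)) ≤ q := by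
  have hs0 : 0 < s := lt_of_lt_of_le (by norm_num) hs
  have hsR : (0 : ℝ) < s := by exact_mod_cast hs0
  have hsB : (2 : ℝ) ^ 60 ≤ s := by exact_mod_cast hs
  have hwR : (2 : ℝ) ^ w ≤ s := by exact_mod_cast hw
  have hw1 : w + 1 ≤ s := (Nat.succ_le_of_lt (Nat.lt_two_pow_self)).trans hw
  have hw1R : (w : ℝ) + 1 ≤ s := by exact_mod_cast hw1
  have hinv : (0 : ℝ) < 1 / (s : ℝ) := by positivity
  have hε0 : 0 < ε := lt_of_lt_of_le hinv hε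
  have hθ0 : 0 < θ := lt_of_lt_of_le hinv hθ
  have h1 : 1 / (θ / 4) ≤ 4 * s := by
    rw [one_div_div, div_le_iff₀ hθ0]
    have : 1 ≤ θ * s := by
      rw [div_le_iff₀ hsR] at hθ
      linarith
    nlinarith
  have h1' : 0 < 1 / (θ / 4) := by positivity
  have h2 : ((s : ℝ) + 1 / (θ / 4)) ^ 2 ≤ (5 * s) ^ 2 :=
    pow_le_pow_left₀ (by positivity) (by linarith) 2
  have h3 : 1 / (4 * (s : ℝ) ^ 3) ≤ ε ^ 2 * (θ / 4) := by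
    have a1 : (1 / (s : ℝ)) ^ 2 ≤ ε ^ 2 := pow_le_pow_left₀ hinv.le hε 2
    calc 1 / (4 * (s : ℝ) ^ 3) = (1 / (s : ℝ)) ^ 2 * (1 / s / 4) := by
          field_simp
      _ ≤ ε ^ 2 * (θ / 4) := mul_le_mul a1 (by linarith) (by positivity) (by positivity)
  have h4 : (10 ^ 6 : ℝ) * 2 ^ w * (w + 1) * (s + 1 / (θ / 4)) ^ 2 ≤ 10 ^ 6 * s * s * (5 * s) ^ 2 := by
    refine mul_le_mul (mul_le_mul (mul_le_mul_of_nonneg_left hwR (by norm_num)) hw1R (by positivity)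
      (by positivity)) h2 (by positivity) (by positivity)
  calc (10 ^ 6 : ℝ) * 2 ^ w * (w + 1) * (s + 1 / (θ / 4)) ^ 2 / (ε ^ 2 * (θ / 4))
      ≤ 10 ^ 6 * s * s * (5 * s) ^ 2 / (1 / (4 * (s : ℝ) ^ 3)) :=
        div_le_div₀ (by positivity) h4 (by positivity) h3
    _ = 10 ^ 8 * (s : ℝ) ^ 7 := by
        field_simp
        ring
    _ ≤ s * (s : ℝ) ^ 7 := mul_le_mul_of_nonneg_right (le_trans (by norm_num) hsB) (by positivity)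
    _ = q := by
        rw [hq]
        push_cast
        ring

/-- The symbols which are read more often. -/
theorem num_T1 {N T : ℕ} {x : ℝ} (hx : 0 ≤ x) (hT : T = N - ⌊x⌋₊) : (N : ℝ) ≤ T + x := by
  have h1 : N ≤ T + ⌊x⌋₊ := by omega
  have h2 : (N : ℝ) ≤ T + (⌊x⌋₊ : ℕ) := by exact_mod_cast h1
  have h3 := Nat.floor_le hx
  linarith

/-- The number of pieces. -/
theorem num_Q {s w q Q : ℕ} (hs : 2 ^ 60 ≤ s) (hw : 2 ^ w ≤ s) (hq : q = s ^ 8) (hQ : Q = (w + 1) * q + 1) :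
    Q ≤ 2 ^ s := by
  have hs0 : 0 < s := lt_of_lt_of_le (by norm_num) hs
  have hw1 : w + 1 ≤ s := (Nat.succ_le_of_lt (Nat.lt_two_pow_self)).trans hw
  have hQ1 : Q ≤ s ^ 10 := by
    have b1 : (w + 1) * q ≤ s ^ 9 := by
      rw [hq]
      calc (w + 1) * s ^ 8 ≤ s * s ^ 8 := Nat.mul_le_mul_right _ hw1
        _ = s ^ 9 := by ring
    have b2 : 1 ≤ s ^ 9 := Nat.one_le_pow _ _ hs0
    have b3 : 2 * s ^ 9 ≤ s ^ 10 := by
      calc 2 * s ^ 9 ≤ s * s ^ 9 := Nat.mul_le_mul_right _ (le_trans (by norm_num) hs)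
        _ = s ^ 10 := by ring
    omega
  have h1 : s ≤ 2 ^ (s / 10) := by
    obtain ⟨v, hv⟩ : ∃ v, s / 10 = v + 10 := ⟨s / 10 - 10, by omega⟩
    have h2 : v + 1 ≤ 2 ^ v := Nat.lt_two_pow_self
    have h3 : s < 10 * (v + 11) := by omega
    rw [hv, pow_add]
    have h4 : 2 ^ 10 = 1024 := by norm_num
    rw [h4]
    omega
  calc Q ≤ s ^ 10 := hQ1
    _ ≤ (2 ^ (s / 10)) ^ 10 := Nat.pow_le_pow_left h1 10
    _ = 2 ^ (s / 10 * 10) := (pow_mul _ _ _).symm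
    _ ≤ 2 ^ s := Nat.pow_le_pow_right (by norm_num) (Nat.div_mul_le_self s 10)

/-- The symbols which are read more often are not all. -/
theorem num_T2 {s w N T : ℕ} {ε : ℝ} (hs : 0 < s) (hw : 2 ^ w ≤ s) (hε : 1 / (s : ℝ) ≤ ε) (hε1 : ε ≤ 1)
    (hN : 20 * s ^ 2 ≤ N) (hT : T = N - ⌊ε / (4 * 2 ^ w) * N⌋₊) : (T : ℝ) ≤ (1 - 1 / (5 * s ^ 2)) * N := by
  have hsR : (0 : ℝ) < s := by exact_mod_cast hs
  have hwR : (2 : ℝ) ^ w ≤ s := by exact_mod_cast hw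
  have hw0 : (1 : ℝ) ≤ 2 ^ w := one_le_pow₀ (by norm_num)
  have hNR : 20 * (s : ℝ) ^ 2 ≤ N := by exact_mod_cast hN
  have hN0 : (0 : ℝ) ≤ N := Nat.cast_nonneg _
  have hinv : (0 : ℝ) < 1 / (s : ℝ) := by positivity
  have hε0 : 0 < ε := lt_of_lt_of_le hinv hε
  have h1 : 1 / (4 * (s : ℝ) ^ 2) ≤ ε / (4 * 2 ^ w) := by
    calc 1 / (4 * (s : ℝ) ^ 2) = 1 / s / (4 * s) := by
          field_simp
      _ ≤ ε / (4 * 2 ^ w) := div_le_div₀ hε0.le hε (by positivity) (by linarith)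
  have h2 : ε / (4 * 2 ^ w) ≤ 1 := by
    rw [div_le_one (by positivity)]
    linarith
  have h3 : ε / (4 * 2 ^ w) * N ≤ N := by nlinarith
  have h4 : ⌊ε / (4 * 2 ^ w) * N⌋₊ ≤ N := by
    have := Nat.floor_le_floor h3
    rwa [Nat.floor_natCast] at this
  have h5 : (T : ℝ) = N - (⌊ε / (4 * 2 ^ w) * N⌋₊ : ℕ) := by
    rw [hT]
    push_cast [Nat.cast_sub h4]
    ring
  have h6 : ε / (4 * 2 ^ w) * N < (⌊ε / (4 * 2 ^ w) * N⌋₊ : ℕ) + 1 := Nat.lt_floor_add_one _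
  have h7 : 1 / (4 * (s : ℝ) ^ 2) * N ≤ ε / (4 * 2 ^ w) * N := mul_le_mul_of_nonneg_right h1 hN0
  have h8 : 1 / (4 * (s : ℝ) ^ 2) * N = 1 / (5 * s ^ 2) * N + N / (20 * s ^ 2) := by
    field_simp
    ring
  have h9 : 1 ≤ (N : ℝ) / (20 * s ^ 2) := by
    rw [le_div_iff₀ (by positivity)]
    linarith
  rw [h5]
  have h10 : (1 - 1 / (5 * (s : ℝ) ^ 2)) * N = N - 1 / (5 * s ^ 2) * N := by ring
  rw [h10]
  linarith

/-- The letters and the contents which are left. -/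
theorem num_he {s h e L : ℕ} (hs : 0 < s) (hh : h = L / (20 * s ^ 2)) (he : e = s ^ 13 / (20 * s ^ 2)) :
    ((s ^ 13 : ℕ) * h + e * L : ℝ) ≤ (s ^ 13 : ℕ) * L * (1 / (5 * s ^ 2)) / 2 := by
  have hsR : (0 : ℝ) < s := by exact_mod_cast hs
  have h1 : (h : ℝ) ≤ L / (20 * s ^ 2) := by
    rw [hh]
    have := Nat.cast_div_le (α := ℝ) (m := L) (n := 20 * s ^ 2)
    push_cast at this ⊢
    exact this
  have h2 : (e : ℝ) ≤ (s ^ 13 : ℕ) / (20 * s ^ 2) := by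
    rw [he]
    have := Nat.cast_div_le (α := ℝ) (m := s ^ 13) (n := 20 * s ^ 2)
    push_cast at this ⊢
    exact this
  have h3 : ((s ^ 13 : ℕ) : ℝ) * h ≤ (s ^ 13 : ℕ) * (L / (20 * s ^ 2)) :=
    mul_le_mul_of_nonneg_left h1 (Nat.cast_nonneg _)
  have h4 : (e : ℝ) * L ≤ (s ^ 13 : ℕ) / (20 * s ^ 2) * L :=
    mul_le_mul_of_nonneg_right h2 (Nat.cast_nonneg _)
  have h5 : ((s ^ 13 : ℕ) : ℝ) * L * (1 / (5 * s ^ 2)) / 2 =
      (s ^ 13 : ℕ) * (L / (20 * s ^ 2)) + (s ^ 13 : ℕ) / (20 * s ^ 2) * L := by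
    field_simp
    ring
  rw [h5]
  linarith

/-- N1: the numbers: `a = s ^ 20`, `n = 16 a`, `m = s ^ 13`, `R = 2 s`, `d = q' = s`, `q = s ^ 8` samples,
`k = card B ≥ s ^ 2000`, `card W = k ^ 60`, `w ≤ log s`, `ε, θ ≥ 1 / s`, `r = 1 / (5 s ^ 2)`. -/
theorem numbers {s k w q T h e S L N t Q : ℕ} {ε θ : ℝ} (hs : 2 ^ 60 ≤ s) (hk : s ^ 2000 ≤ k)
    (hw : 2 ^ w ≤ s) (hε : 1 / (s : ℝ) ≤ ε) (hε1 : ε ≤ 1) (hθ : 1 / (s : ℝ) ≤ θ) (hθ1 : θ ≤ 1) (hL : L = k ^ 60)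
    (hN : N = k * L) (hT : T = N - ⌊ε / (4 * 2 ^ w) * N⌋₊) (hq : q = s ^ 8) (hh : h = L / (20 * s ^ 2))
    (he : e = s ^ 13 / (20 * s ^ 2)) (hS : S ≤ 2 ^ s) (hQ : Q = (w + 1) * q + 1)
    (ht : t ≤ (S * (2 ^ s + 1) * (w + 2) ^ q) ^ ((w + 1) * q + 2)) :
    (10 ^ 6 : ℝ) * 2 ^ w * (w + 1) * (s + 1 / (θ / 4)) ^ 2 / (ε ^ 2 * (θ / 4)) ≤ q ∧
    (N : ℝ) ≤ T + ε / (4 * 2 ^ w) * N ∧ Q ≤ 2 ^ s ∧ 0 < h ∧ h + 1 ≤ L ∧ e < s ^ 13 ∧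
    (T : ℝ) ≤ (1 - 1 / (5 * s ^ 2)) * N ∧
    ((s ^ 13 : ℕ) * h + e * L : ℝ) ≤ (s ^ 13 : ℕ) * L * (1 / (5 * s ^ 2)) / 2 ∧
    ((2 * s + 1 : ℝ) * ((8 * s ^ 20 * 2 : ℕ) * (s ^ 13 : ℕ))) ^ 2 / k + 2 * 2 ^ 4 / Real.sqrt k +
      errA (8 * s ^ 20 * 2) 15 (s ^ 13) (s ^ 20) (2 * s) S Q s e (1 / (5 * s ^ 2)) ((h : ℝ) / L) +
      t * (15 * (s ^ 13 : ℕ) + 1) ^ (2 * (8 * s ^ 20 * 2)) *
        ((k : ℝ) ^ (-((8 * s ^ 20 * 2 - 2 * s ^ 20 : ℕ) * (1 : ℕ) : ℝ) / 2 ^ 5) *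
          (1 / ((h : ℝ) / L)) ^ (4 * (8 * s ^ 20 * 2))) ≤ θ / 4 := by
  have hs0 : 0 < s := lt_of_lt_of_le (by norm_num) hs
  have hs2 : 2 ≤ s := le_trans (by norm_num) hs
  have hsR : (0 : ℝ) < s := by exact_mod_cast hs0
  have hinv : (0 : ℝ) < 1 / (s : ℝ) := by positivity
  have hε0 : 0 < ε := lt_of_lt_of_le hinv hε
  have hθ0 : 0 < θ := lt_of_lt_of_le hinv hθ
  have hkL : k ≤ L := by
    rw [hL]
    exact Nat.le_self_pow (by norm_num) k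
  have h20 : 20 * s ^ 2 ≤ k := by
    have a1 : 20 * s ^ 2 ≤ s ^ 3 := by
      have : 20 ≤ s := le_trans (by norm_num) hs
      calc 20 * s ^ 2 ≤ s * s ^ 2 := Nat.mul_le_mul_right _ this
        _ = s ^ 3 := by ring
    exact a1.trans ((Nat.pow_le_pow_right hs0 (by norm_num)).trans hk)
  have hs2' : 1 ≤ s ^ 2 := Nat.one_le_pow _ _ hs0
  have hL20 : 20 ≤ L := by
    have : 20 ≤ 20 * s ^ 2 := by omega
    exact this.trans (h20.trans hkL)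
  have hN20 : 20 * s ^ 2 ≤ N := by
    rw [hN]
    calc 20 * s ^ 2 ≤ k := h20
      _ = k * 1 := (mul_one k).symm
      _ ≤ k * L := Nat.mul_le_mul_left _ (by omega)
  refine ⟨num_q hs hw hε hθ hq, num_T1 (by positivity) hT, num_Q hs hw hq hQ,
    (Pool.Agent.Helper97.BT.eta_le hs hk hL hh).1, ?_, ?_, num_T2 hs0 hw hε hε1 hN20 hT, num_he hs0 hh he, ?_⟩
  · have h1 : h ≤ L / 20 := by
      rw [hh]
      exact Nat.div_le_div_left (by omega) (by norm_num)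
    omega
  · rw [he]
    exact Nat.div_lt_self (by positivity) (by omega)
  · have hA := Pool.Agent.Helper97.BT.numA hs hk hw hθ hL hq hh he hS hQ
    have hB := Pool.Agent.Helper97.BT.numB hs hk hθ
    have hC := Pool.Agent.Helper42.BT.numC hs hk hw hθ hL hq hh hS ht
    linarith

end Pool.Agent.Helper58.BT
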